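import Mathlib
set_option autoImplicit false

namespace Pool.Agent.Results.MP_b67aea_co.Four
open Multiset

/-- the parts of `pre_k`: all products of `k` of the parts, with multiplicity -/
def pre (k : ℕ) (m : Multiset ℕ) : Multiset ℕ := (m.powersetCard k).map Multiset.prod

theorem dual {ι : Type} [Fintype ι] (k C : ℕ) (hC : 0 < C) (f g : ι → ℕ)
    (hc : Fintype.card ι = 2 * k) (h : ∀ i, f i * g i = C) (hp : ∏ i, f i = C ^ k) :
    pre k (Finset.univ.val.map f) = pre k (Finset.univ.val.map g) := by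
  classical
  simp only [pre, powersetCard_map, ← Finset.map_val_val_powersetCard, map_map]
  have c : ∀ S ∈ (Finset.univ : Finset ι).powersetCard k, Sᶜ ∈ Finset.univ.powersetCard k :=
    fun S hS => Finset.mem_powersetCard.2 ⟨Finset.subset_univ _, by
      rw [Finset.card_compl, (Finset.mem_powersetCard.1 hS).2]
      omega⟩
  refine map_eq_map_of_bij_of_nodup _ _ (Finset.nodup _) (Finset.nodup _) (fun S _ => Sᶜ) c
    (fun _ _ _ _ h => compl_injective h) (fun S hS => ⟨Sᶜ, c S hS, compl_compl S⟩) fun S hS => ?_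
  show ∏ i ∈ S, f i = ∏ i ∈ Sᶜ, g i
  have h1 := Finset.prod_mul_prod_compl S f
  have h2 : (∏ i ∈ Sᶜ, f i) * ∏ i ∈ Sᶜ, g i = C ^ k := by
    rw [← Finset.prod_mul_distrib, Finset.prod_congr rfl fun i _ => h i, Finset.prod_const,
      (Finset.mem_powersetCard.1 (c S hS)).2]
  have h3 : ∏ i ∈ Sᶜ, f i ≠ 0 := fun h0 => by
    rw [h0, zero_mul] at h2
    exact (pow_pos hC k).ne h2
  exact mul_right_cancel₀ h3 (by rw [h1, hp, ← h2, mul_comm])

theorem rep (A B N : ℕ) (hA : 0 < A) (h : Nat.Coprime A B) :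
    ∃ M, ∀ n ≥ M, ∃ x y, 0 < y ∧ N * y < x ∧ n = x * A + y * B := by
  refine ⟨(N * A + 1) * A + A * B, fun n hn => ?_⟩
  obtain ⟨y, y0, y1, hy⟩ : ∃ y, 0 < y ∧ y ≤ A ∧ y * B ≡ n [MOD A] := by
    obtain ⟨z, z1, hz⟩ := Nat.exists_mul_mod_eq_of_coprime n h.symm hA.ne'
    rcases Nat.eq_zero_or_pos z with rfl | z0
    · exact ⟨A, hA, le_rfl, by simpa [Nat.ModEq] using hz⟩
    · exact ⟨z, z0, z1.le, by rwa [mul_comm]⟩
  have h1 := Nat.mul_le_mul_right B y1
  obtain ⟨x, hx⟩ := (Nat.modEq_iff_dvd' (by omega)).1 hy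
  refine ⟨x, y, y0, ?_, by rw [mul_comm x]; omega⟩
  have h2 : (N * A + 1) * A ≤ x * A := by rw [mul_comm x]; omega
  have h3 := Nat.le_of_mul_le_mul_right h2 hA
  have := Nat.mul_le_mul_left N y1
  omega

theorem main (m t : ℕ) (ht : 0 < t) (w w' : Fin m → ℕ) (hw : ∀ i, w i * w' i = 1680 * t)
    (h : Nat.Coprime (119 + ∑ i, w i) (267 * t + ∑ i, w' i)) : ∃ M, ∀ n ≥ M,
    ∃ p q : Nat.Partition n, p ≠ q ∧ 4 + m < p.parts.card ∧ 4 + m < q.parts.card ∧
      pre (4 + m) p.parts = pre (4 + m) q.parts := by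
  obtain ⟨M, H⟩ := rep _ _ (1680 * t) (by omega) h
  refine ⟨M, fun n hn => ?_⟩
  obtain ⟨x, y, y0, hx, rfl⟩ := H n hn
  have x0 : 0 < x := by omega
  let f : (Fin 4 ⊕ Fin m) ⊕ (Fin 4 ⊕ Fin m) → ℕ :=
    Sum.elim (Sum.elim (fun i => x * ![15, 28, 28, 48] i) fun i => x * w i)
      (Sum.elim (fun i => y * t * ![105, 80, 42, 40] i) fun i => y * w' i)
  let g : (Fin 4 ⊕ Fin m) ⊕ (Fin 4 ⊕ Fin m) → ℕ :=
    Sum.elim (Sum.elim (fun i => y * t * ![112, 60, 60, 35] i) fun i => y * w' i)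
      (Sum.elim (fun i => x * ![16, 21, 40, 42] i) fun i => x * w i)
  have C0 : 0 < x * y * (1680 * t) := by positivity
  have fg : ∀ i, f i * g i = x * y * (1680 * t) := by
    rintro ((i | i) | (i | i))
    · fin_cases i <;> simp [f, g] <;> ring
    · simp only [f, g, Sum.elim_inl, Sum.elim_inr, ← hw i]
      ring
    · fin_cases i <;> simp [f, g] <;> ring
    · simp only [f, g, Sum.elim_inr, ← hw i]
      ring
  have cd : Fintype.card ((Fin 4 ⊕ Fin m) ⊕ (Fin 4 ⊕ Fin m)) = 2 * (4 + m) := by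
    simp
    omega
  refine ⟨⟨Finset.univ.val.map f, fun {a} ha => ?_, ?_⟩, ⟨Finset.univ.val.map g, fun {a} ha => ?_, ?_⟩,
    fun he => ?_, ?_, ?_, dual _ _ C0 f g cd fg ?_⟩
  · obtain ⟨i, -, rfl⟩ := mem_map.1 ha
    exact Nat.pos_of_mul_pos_right (fg i ▸ C0)
  · show ∑ i, f i = _
    simp only [f, Fintype.sum_sum_type, Sum.elim_inl, Sum.elim_inr, Fin.sum_univ_four,
      ← Finset.mul_sum]
    simp
    ring
  · obtain ⟨i, -, rfl⟩ := mem_map.1 ha
    exact Nat.pos_of_mul_pos_left (fg i ▸ C0)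
  · show ∑ i, g i = _
    simp only [g, Fintype.sum_sum_type, Sum.elim_inl, Sum.elim_inr, Fin.sum_univ_four,
      ← Finset.mul_sum]
    simp
    ring
  · have e := congrArg (fun p : Nat.Partition _ => (p.parts.map (· ^ 2)).sum) he
    simp only [map_map] at e
    change ∑ i, f i ^ 2 = ∑ i, g i ^ 2 at e
    simp only [f, g, Fintype.sum_sum_type, Sum.elim_inl, Sum.elim_inr, Fin.sum_univ_four] at e
    simp at e
    have : 1680 * (y * t) < x := by linarith
    nlinarith
  · rw [card_map, Finset.card_val, Finset.card_univ, cd]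
    omega
  · rw [card_map, Finset.card_val, Finset.card_univ, cd]
    omega
  · have e : (∏ i, x * w i) * ∏ i, y * w' i = (x * y * (1680 * t)) ^ m := by
      rw [← Finset.prod_mul_distrib, Finset.prod_congr rfl fun i _ =>
        show x * w i * (y * w' i) = x * y * (1680 * t) by rw [← hw i]; ring]
      simp
    simp only [f, Fintype.prod_sum_type, Sum.elim_inl, Sum.elim_inr, Fin.prod_univ_four]
    rw [pow_add, ← e]
    simp
    ring

theorem result (k : ℕ) (hk : 4 ≤ k) : ∃ M, ∀ n ≥ M, ∃ p q : Nat.Partition n,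
    p ≠ q ∧ k < p.parts.card ∧ k < q.parts.card ∧ pre k p.parts = pre k q.parts := by
  obtain ⟨m, rfl⟩ := Nat.exists_eq_add_of_le hk
  rcases m with _ | m
  · exact main 0 1 one_pos (fun _ => 0) (fun _ => 0) (fun i => i.elim0) (by simp; norm_num)
  obtain ⟨R, hR⟩ : ∃ R, (119 + m) * (267 + 1680 * m) = R + 1 + 1680 :=
    ⟨(119 + m) * (267 + 1680 * m) - 1681, by
      have : 119 * 267 ≤ (119 + m) * (267 + 1680 * m) := Nat.mul_le_mul (by omega) (by omega)
      omega⟩
  refine main (m + 1) ((119 + m) * R + 1) (by omega) (Fin.cons ((119 + m) * R + 1) fun _ => 1)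
    (Fin.cons 1680 fun _ => 1680 * ((119 + m) * R + 1)) (fun i => ?_) ?_
  · refine Fin.cases ?_ (fun i => ?_) i <;> simp [mul_comm]
  · simp only [Fin.sum_univ_succ, Fin.cons_zero, Fin.cons_succ, Finset.sum_const, Finset.card_univ,
      Fintype.card_fin, smul_eq_mul, mul_one]
    refine Nat.isCoprime_iff_coprime.1 ⟨1 - (119 + m) * (267 + 1680 * m), 119 + m, ?_⟩
    zify at hR
    push_cast
    linear_combination -(119 + m) * hR

end Pool.Agent.Results.MP_b67aea_co.Four
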